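import Pool.Agent.R575.WC.Tree

/-! Locally constant functions of two points of Baire space, closed relations, universal codes. -/

namespace Pool.Agent.R575.WC

/-- `f` is locally constant on `Bai × Bai` -/
def LC {α : Sort*} (f : Bai → Bai → α) : Prop :=
  ∀ x y, ∃ N, ∀ x' y', (∀ k < N, x' k = x k) → (∀ k < N, y' k = y k) → f x' y' = f x y

theorem LC.const {α : Sort*} (a : α) : LC (fun _ _ => a) := fun _ _ => ⟨0, fun _ _ _ _ => rfl⟩

theorem LC.bind {α : Sort*} {β : Sort*} {f : Bai → Bai → α} {g : α → Bai → Bai → β} (hf : LC f)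
    (hg : ∀ a, LC (g a)) : LC (fun x y => g (f x y) x y) := by
  intro x y
  obtain ⟨N, hN⟩ := hf x y
  obtain ⟨M, hM⟩ := hg (f x y) x y
  refine ⟨max N M, fun x' y' hx hy => ?_⟩
  show g (f x' y') x' y' = g (f x y) x y
  rw [hN x' y' (fun k hk => hx k (lt_of_lt_of_le hk (le_max_left _ _)))
    (fun k hk => hy k (lt_of_lt_of_le hk (le_max_left _ _)))]
  exact hM x' y' (fun k hk => hx k (lt_of_lt_of_le hk (le_max_right _ _)))
    (fun k hk => hy k (lt_of_lt_of_le hk (le_max_right _ _)))

theorem LC.map {α : Sort*} {β : Sort*} {f : Bai → Bai → α} (hf : LC f) (g : α → β) :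
    LC (fun x y => g (f x y)) := hf.bind fun a => LC.const (g a)

theorem LC.map2 {α β γ : Sort*} {f : Bai → Bai → α} {f' : Bai → Bai → β} (hf : LC f)
    (hf' : LC f') (g : α → β → γ) : LC (fun x y => g (f x y) (f' x y)) :=
  hf.bind fun a => hf'.map (g a)

theorem LC.and {P Q : Bai → Bai → Prop} (hP : LC P) (hQ : LC Q) :
    LC (fun x y => P x y ∧ Q x y) := hP.map2 hQ And

theorem LC.imp {P Q : Bai → Bai → Prop} (hP : LC P) (hQ : LC Q) :
    LC (fun x y => P x y → Q x y) := hP.map2 hQ (fun a b => a → b)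

theorem LC.coordx (n : ℕ) : LC (fun x _ => x n) :=
  fun _ _ => ⟨n + 1, fun _ _ hx _ => hx n (Nat.lt_succ_self n)⟩

theorem LC.coordy (n : ℕ) : LC (fun _ y => y n) :=
  fun _ _ => ⟨n + 1, fun _ _ _ hy => hy n (Nat.lt_succ_self n)⟩

theorem LC.segx (n : ℕ) : LC (fun x _ => seg x n) :=
  fun _ _ => ⟨n, fun _ _ hx _ => seg_ext hx⟩

theorem LC.all {P : ℕ → Bai → Bai → Prop} (n : ℕ) (h : ∀ m, LC (P m)) :
    LC (fun x y => ∀ m < n, P m x y) := by
  induction n with
  | zero => 
    have : (fun (x y : Bai) => ∀ m < 0, P m x y) = fun _ _ => True := by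
      funext x y; simp
    rw [this]; exact LC.const True
  | succ n ih =>
    have : (fun (x y : Bai) => ∀ m < n + 1, P m x y) =
        fun x y => (∀ m < n, P m x y) ∧ P n x y := by
      funext x y
      apply propext
      constructor
      · intro h; exact ⟨fun m hm => h m (by omega), h n (by omega)⟩
      · rintro ⟨h1, h2⟩ m hm
        rcases Nat.lt_succ_iff_lt_or_eq.1 hm with h3 | h3
        · exact h1 m h3
        · exact h3 ▸ h2
    rw [this]; exact ih.and (h n)

/-- closed relations -/
def Cl (F : Bai → Bai → Prop) : Prop :=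
  ∀ x y, (∀ N, ∃ x' y', (∀ k < N, x' k = x k) ∧ (∀ k < N, y' k = y k) ∧ F x' y') → F x y

theorem LC.cl {P : Bai → Bai → Prop} (h : LC P) : Cl P := by
  intro x y hxy
  obtain ⟨N, hN⟩ := h x y
  obtain ⟨x', y', hx, hy, hF⟩ := hxy N
  rw [← hN x' y' hx hy]
  exact hF

theorem Cl.all {ι : Sort*} {P : ι → Bai → Bai → Prop} (h : ∀ i, Cl (P i)) :
    Cl (fun x y => ∀ i, P i x y) := by
  intro x y hxy i
  apply h i x y
  intro N
  obtain ⟨x', y', hx, hy, hF⟩ := hxy N
  exact ⟨x', y', hx, hy, hF i⟩

open Classical in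
/-- a name of the section at `x` of the closed relation `F`, depending continuously on `x` -/
noncomputable def nm (F : Bai → Bai → Prop) (x : Bai) : Bai := fun n =>
  if ∃ x' y', (∀ k < (Denumerable.ofNat (List ℕ) n).length, x' k = x k) ∧
      Beg (Denumerable.ofNat (List ℕ) n) y' ∧ F x' y' then 0 else n + 1

theorem nm_closed {F : Bai → Bai → Prop} (hF : Cl F) (x : Bai) :
    closedOf (nm F x) = {y | F x y} := by
  ext y
  constructor
  · intro h
    apply hF x y
    intro N
    by_contra hcon
    have h1 := h (Encodable.encode (seg y N)) (seg y N) ?_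
    · exact h1 (Beg_seg y N)
    · unfold nm
      rw [Denumerable.ofNat_encode, if_neg]
      rintro ⟨x', y', h2, h3, h4⟩
      apply hcon
      refine ⟨x', y', ?_, ?_, h4⟩
      · simpa using h2
      · have h5 : seg y N = seg y' N := by
          have : seg y N = seg y' (seg y N).length := h3
          simpa using this
        exact fun k hk => (seg_inj h5 k hk).symm
  · intro h n w hn hw
    unfold nm at hn
    split at hn
    · exact absurd hn (by simp)
    · rename_i h1
      apply h1
      have h2 : n = Encodable.encode w := by omega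
      rw [h2, Denumerable.ofNat_encode]
      exact ⟨x, y, fun _ _ => rfl, hw, h⟩

theorem LC.nm (F : Bai → Bai → Prop) (n : ℕ) : LC (fun x _ => nm F x n) := by
  intro x y
  refine ⟨(Denumerable.ofNat (List ℕ) n).length, fun x' y' hx _ => ?_⟩
  unfold WC.nm
  have : (∃ x_1 y', (∀ k < (Denumerable.ofNat (List ℕ) n).length, x_1 k = x' k) ∧
      Beg (Denumerable.ofNat (List ℕ) n) y' ∧ F x_1 y') ↔
      (∃ x_1 y', (∀ k < (Denumerable.ofNat (List ℕ) n).length, x_1 k = x k) ∧
      Beg (Denumerable.ofNat (List ℕ) n) y' ∧ F x_1 y') := by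
    constructor
    · rintro ⟨a, b, h1, h2⟩
      exact ⟨a, b, fun k hk => (h1 k hk).trans (hx k hk), h2⟩
    · rintro ⟨a, b, h1, h2⟩
      exact ⟨a, b, fun k hk => (h1 k hk).trans (hx k hk).symm, h2⟩
  dsimp only
  split_ifs with h1 h2 h2
  · rfl
  · exact absurd (this.1 h1) h2
  · exact absurd (this.2 h2) h1
  · rfl

theorem LC.segnm (F : Bai → Bai → Prop) (n : ℕ) : LC (fun x _ => seg (WC.nm F x) n) := by
  induction n with
  | zero => exact LC.const _
  | succ n ih =>
    simp only [seg_succ]
    exact ih.map2 (LC.nm F n) (fun l a => l ++ [a])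

/-- the universal tree -/
def UT (a x : Bai) (σ : List ℕ) : Prop :=
  ∀ m < σ.length, a (Encodable.encode (seg x (m + 1), σ.take (m + 1))) = 0

theorem UT_tree (a x : Bai) : IsTree (UT a x) := by
  constructor
  · intro m hm; simp at hm
  · intro u w huw hw m hm
    have h1 := hw m (lt_of_lt_of_le hm huw.length_le)
    have h2 : u.take (m + 1) = w.take (m + 1) := by
      obtain ⟨t, rfl⟩ := huw
      rw [List.take_append_of_le_length (by omega)]
    rw [h2]; exact h1

open Classical in
/-- a code of the closed relation `F` -/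
noncomputable def cd (F : Bai → Bai → Prop) : Bai := fun n =>
  if ∃ x y, Beg (Denumerable.ofNat (List ℕ × List ℕ) n).1 x ∧
    Beg (Denumerable.ofNat (List ℕ × List ℕ) n).2 y ∧ F x y then 0 else 1

theorem seg_take (z : Bai) {m n : ℕ} (h : m ≤ n) : (seg z n).take m = seg z m := by
  have h1 := (List.prefix_iff_eq_take.1 (seg_le z h))
  rw [seg_length] at h1
  exact h1.symm

theorem cd_path {F : Bai → Bai → Prop} (hF : Cl F) (x z : Bai) :
    (∀ n, UT (cd F) x (seg z n)) ↔ F x z := by
  constructor
  · intro h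
    apply hF x z
    intro N
    have h1 := h (N + 1) N (by simp)
    rw [seg_take z le_rfl] at h1
    unfold cd at h1
    rw [Denumerable.ofNat_encode] at h1
    split at h1
    · rename_i h2
      obtain ⟨x', z', h3, h4, h5⟩ := h2
      have h3' : seg x (N + 1) = seg x' (N + 1) := by
        have : seg x (N + 1) = seg x' (seg x (N + 1)).length := h3
        simpa using this
      have h4' : seg z (N + 1) = seg z' (N + 1) := by
        have : seg z (N + 1) = seg z' (seg z (N + 1)).length := h4
        simpa using this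
      exact ⟨x', z', fun k hk => (seg_inj h3' k (by omega)).symm,
        fun k hk => (seg_inj h4' k (by omega)).symm, h5⟩
    · exact absurd h1 (by simp)
  · intro h n m hm
    rw [seg_length] at hm
    rw [seg_take z (by omega)]
    unfold cd
    rw [Denumerable.ofNat_encode, if_pos]
    exact ⟨x, z, Beg_seg _ _, Beg_seg _ _, h⟩

/-- rows -/
def row (x : Bai) (r : ℕ) : Bai := fun n => x (Nat.pair r n)

theorem LC.UT (r : ℕ) (σ : List ℕ) : LC (fun x _ => UT (row x r) x σ) := by
  unfold WC.UT
  apply LC.all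
  intro m
  have h1 : LC (fun x _ => x (Nat.pair r (Encodable.encode (seg x (m + 1), σ.take (m + 1))))) :=
    LC.bind (f := fun x _ => Nat.pair r (Encodable.encode (seg x (m + 1), σ.take (m + 1))))
      (g := fun a x _ => x a)
      ((LC.segx (m + 1)).map (fun s => Nat.pair r (Encodable.encode (s, σ.take (m + 1)))))
      (fun a => LC.coordx a)
  exact h1.map (fun a => a = 0)

end Pool.Agent.R575.WC
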