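import Mathlib

/-!
Weihrauch reducibility at the level of names, and the problems of MP_88baa4_lc.
-/

namespace Pool.Agent.R575.WC

/-- Baire space (with the product topology of the discrete topology). -/
abbrev Bai := ℕ → ℕ

/-- the initial segment of length `n` of `p` -/
def seg (p : Bai) (n : ℕ) : List ℕ := (List.range n).map p

/-- the word `w` is an initial segment of `p` -/
def Beg (w : List ℕ) (p : Bai) : Prop := w = seg p w.length

/-- increasing functions on words -/
def Incr (F : List ℕ → List ℕ) : Prop := ∀ u v, u <+: v → F u <+: F v

/-- the (in general not everywhere defined) map on Baire space given by an increasing function on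
words: `Maps F p q` says that `p` lies in its domain and is sent to `q`, that is, that the words
`F (seg p n)` are initial segments of `q` of unbounded length. -/
def Maps (F : List ℕ → List ℕ) (p q : Bai) : Prop :=
  (∀ n, Beg (F (seg p n)) q) ∧ ∀ k, ∃ n, k ≤ (F (seg p n)).length

/-- pairing on Baire space -/
def pair (p q : Bai) : Bai := fun n => if n % 2 = 0 then p (n / 2) else q (n / 2)

/-- A problem (multivalued function) between represented spaces, given on names: `f p q` says that
`p` is a name of an instance and `q` is a name of one of its solutions. The domain consists of the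
`p` with `f p q` for some `q`. -/
abbrev Prob := Bai → Bai → Prop

/-- Reducibility of problems with two increasing word functions from the class `C`. -/
def Red (C : (List ℕ → List ℕ) → Prop) (f g : Prob) : Prop :=
  ∃ Φ Ψ : List ℕ → List ℕ, C Φ ∧ C Ψ ∧ Incr Φ ∧ Incr Ψ ∧
    ∀ p, (∃ q, f p q) → ∃ u, Maps Φ p u ∧ (∃ v, g u v) ∧
      ∀ v, g u v → ∃ r, Maps Ψ (pair p v) r ∧ f p r

/-- Weihrauch reducibility: the two maps on Baire space are computable. -/
def WRed (f g : Prob) : Prop := Red (fun F => Computable F) f g

/-- Topological (continuous) Weihrauch reducibility: the two maps are only required to be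
continuous. -/
def TRed (f g : Prob) : Prop := Red (fun _ => True) f g

/-- Composition of multivalued functions: `comp f g` is `f ∘ g`. -/
def comp (f g : Prob) : Prob := fun p r =>
  (∀ q, g p q → ∃ s, f q s) ∧ ∃ q, g p q ∧ f q r

/-- `h` is Weihrauch reducible to the compositional product `f * g`. -/
def WRedProd (h f g : Prob) : Prop :=
  ∃ f0 g0 : Prob, WRed f0 f ∧ WRed g0 g ∧ WRed h (comp f0 g0)

/-- the same for topological Weihrauch reducibility -/
def TRedProd (h f g : Prob) : Prop :=
  ∃ f0 g0 : Prob, TRed f0 f ∧ TRed g0 g ∧ TRed h (comp f0 g0)

/-- The closed subset of Baire space with (negative) name `p`: `p` lists codes (plus one) of words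
whose basic open sets cover the complement. -/
def closedOf (p : Bai) : Set Bai :=
  {x | ∀ n w, p n = Encodable.encode (w : List ℕ) + 1 → ¬ Beg w x}

/-- The closed subset of `ℕ` with (negative) name `p`. -/
def closedNat (p : Bai) : Set ℕ := {m | ∀ n, p n ≠ m + 1}

/-- Choice on Baire space. -/
def CBaire : Prob := fun p x => x ∈ closedOf p

/-- Choice on the natural numbers; `q` names the number `q 0`. -/
def CNat : Prob := fun p q => q 0 ∈ closedNat p

/-- The perfect kernel of closed subsets of Baire space. -/
def PK : Prob := fun p q => ∃ S : Set Bai, Perfect (closedOf q) ∧ S.Countable ∧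
  Disjoint (closedOf q) S ∧ closedOf p = closedOf q ∪ S

end Pool.Agent.R575.WC
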