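import Pool.Agent.R575.WC.Words

/-! Countable parts of closed sets, the perfect kernel and Cantor schemes. -/

namespace Pool.Agent.R575.WC

/-- the part of `A` in the basic open set of `w` -/
def part (A : Set Bai) (w : List ℕ) : Set Bai := {y | y ∈ A ∧ Beg w y}

theorem part_anti (A : Set Bai) {u w : List ℕ} (h : u <+: w) : part A w ⊆ part A u :=
  fun _ hy => ⟨hy.1, Beg_of_pre h hy.2⟩

theorem split (A : Set Bai) (w : List ℕ) (h : ¬ (part A w).Countable) :
    ∃ w0 w1, w <+: w0 ∧ w <+: w1 ∧ ¬ w0 <+: w1 ∧ ¬ w1 <+: w0 ∧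
      ¬ (part A w0).Countable ∧ ¬ (part A w1).Countable := by
  by_contra hcon
  push Not at hcon
  apply h
  have hc : (⋃ u ∈ {u : List ℕ | (part A u).Countable}, part A u).Countable := by
    apply Set.Countable.biUnion
    · exact Set.to_countable _
    · intro u hu; exact hu
  have hs : {y | y ∈ part A w ∧ ∀ n, ¬ (part A (seg y n)).Countable}.Subsingleton := by
    rintro y ⟨hy, hy2⟩ y' ⟨hy', hy2'⟩
    by_contra hne
    obtain ⟨i, hi⟩ : ∃ i, y i ≠ y' i := by
      by_contra hx
      push Not at hx
      exact hne (funext hx)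
    have e1 : w <+: seg y (max w.length (i + 1)) := Beg_pre hy.2 (Beg_seg _ _) (by simp)
    have e2 : w <+: seg y' (max w.length (i + 1)) := Beg_pre hy'.2 (Beg_seg _ _) (by simp)
    have key : seg y (max w.length (i + 1)) ≠ seg y' (max w.length (i + 1)) := by
      intro h
      exact hi (seg_inj h i (lt_of_lt_of_le (Nat.lt_succ_self i) (le_max_right _ _)))
    have n1 : ¬ seg y (max w.length (i + 1)) <+: seg y' (max w.length (i + 1)) :=
      fun h => key (h.eq_of_length (by simp))
    have n2 : ¬ seg y' (max w.length (i + 1)) <+: seg y (max w.length (i + 1)) :=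
      fun h => key (h.eq_of_length (by simp)).symm
    exact hy2' _ (hcon _ _ e1 e2 n1 n2 (hy2 _))
  refine (hc.union hs.countable).mono ?_
  intro y hy
  by_cases h1 : ∀ n, ¬ (part A (seg y n)).Countable
  · exact Or.inr ⟨hy, h1⟩
  · push Not at h1
    obtain ⟨n, hn⟩ := h1
    refine Or.inl ?_
    simp only [Set.mem_iUnion]
    exact ⟨seg y n, hn, hy.1, Beg_seg y n⟩

/-- the perfect kernel -/
def ker (A : Set Bai) : Set Bai := {y | y ∈ A ∧ ∀ n, ¬ (part A (seg y n)).Countable}

theorem ker_compl_countable (A : Set Bai) : (A \ ker A).Countable := by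
  have hc : (⋃ u ∈ {u : List ℕ | (part A u).Countable}, part A u).Countable := by
    apply Set.Countable.biUnion
    · exact Set.to_countable _
    · intro u hu; exact hu
  refine hc.mono ?_
  rintro y ⟨hy, hy2⟩
  simp only [ker, Set.mem_ofPred_eq, not_and, not_forall, not_not] at hy2
  obtain ⟨n, hn⟩ := hy2 hy
  simp only [Set.mem_iUnion]
  exact ⟨seg y n, hn, hy, Beg_seg y n⟩

theorem nhds_seg {x : Bai} {U : Set Bai} (hU : U ∈ nhds x) : ∃ n, ∀ y, Beg (seg x n) y → y ∈ U := by
  rw [nhds_pi, Filter.mem_pi] at hU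
  obtain ⟨I, hI, t, ht, hsub⟩ := hU
  obtain ⟨n, hn⟩ := hI.bddAbove
  refine ⟨n + 1, fun y hy => hsub ?_⟩
  intro i hi
  have h1 : i < (seg x (n + 1)).length := by
    rw [seg_length]; exact Nat.lt_succ_of_le (hn hi)
  have h2 : x i = y i := by
    rw [← seg_getElem x (n + 1) i h1]
    exact Beg_iff.1 hy i h1
  rw [← h2]
  exact mem_of_mem_nhds (ht i)

theorem ker_perfect (A : Set Bai) (hcl : IsClosed (ker A)) : Perfect (ker A) := by
  refine ⟨hcl, ?_⟩
  intro x hx
  rw [accPt_iff_nhds]
  intro U hU
  obtain ⟨n, hn⟩ := nhds_seg hU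
  by_contra hcon
  push Not at hcon
  apply hx.2 n
  refine ((ker_compl_countable A).union (Set.countable_singleton x)).mono ?_
  intro y hy
  by_cases h1 : y ∈ ker A
  · right
    exact hcon y ⟨hn y hy.2, h1⟩
  · left
    exact ⟨hy.1, h1⟩

/-- names of the perfect kernel from enumerations -/
theorem PK_of_enum {v g : Bai} {A : Set Bai} (hv : closedOf v = A)
    (h1 : ∀ n w, g n = Encodable.encode (w : List ℕ) + 1 → (part A w).Countable)
    (h2 : ∀ w : List ℕ, (part A w).Countable → ∃ n, g n = Encodable.encode w + 1) :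
    PK v (pair v g) := by
  have hk : closedOf (pair v g) = ker A := by
    rw [closedOf_pair, hv]
    ext y
    constructor
    · rintro ⟨h3, h4⟩
      refine ⟨h3, fun n hn => ?_⟩
      obtain ⟨k, hk⟩ := h2 _ hn
      exact h4 k _ hk (Beg_seg y n)
    · rintro ⟨h3, h4⟩
      refine ⟨h3, fun n w hn hw => ?_⟩
      have h5 : w = seg y w.length := hw
      apply h4 w.length
      rw [← h5]
      exact h1 n w hn
  have hcl : IsClosed (ker A) := hk ▸ closedOf_isClosed _
  refine ⟨A \ ker A, ?_, ker_compl_countable A, ?_, ?_⟩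
  · rw [hk]; exact ker_perfect A hcl
  · rw [hk]; exact Set.disjoint_sdiff_right
  · rw [hk, hv, Set.union_sdiff_cancel]
    exact fun y hy => hy.1

/-- Cantor schemes `h` above `τ` -/
structure Sch (V : ℕ → List ℕ) (τ : List ℕ) (h : List Bool → List ℕ) : Prop where
  root : τ <+: h []
  ext : ∀ s b, h s <+: h (b :: s)
  inc : ∀ s, ¬ h (true :: s) <+: h (false :: s) ∧ ¬ h (false :: s) <+: h (true :: s)
  val : ∀ s n, n ≤ s.length → ∀ e ∈ V n, ∀ w, e = Encodable.encode (w : List ℕ) + 1 → ¬ w <+: h s

/-- the closed set given by the words in the lists `V n` -/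
def setOf (V : ℕ → List ℕ) : Set Bai :=
  {x | ∀ n, ∀ e ∈ V n, ∀ w, e = Encodable.encode (w : List ℕ) + 1 → ¬ Beg w x}

theorem exists_sch {V : ℕ → List ℕ} {τ : List ℕ} (hτ : ¬ (part (setOf V) τ).Countable) :
    ∃ h, Sch V τ h := by
  classical
  have hsp : ∀ w, ∃ w0 w1, ¬ (part (setOf V) w).Countable → (w <+: w0 ∧ w <+: w1 ∧
      ¬ w0 <+: w1 ∧ ¬ w1 <+: w0 ∧ ¬ (part (setOf V) w0).Countable ∧
      ¬ (part (setOf V) w1).Countable) := by
    intro w
    by_cases h : (part (setOf V) w).Countable
    · exact ⟨[], [], fun h1 => absurd h h1⟩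
    · obtain ⟨w0, w1, h1⟩ := split _ w h
      exact ⟨w0, w1, fun _ => h1⟩
  choose a b hab using hsp
  let h : List Bool → List ℕ := fun l =>
    List.rec τ (fun c _ r => if c = true then a r else b r) l
  have h0 : h [] = τ := rfl
  have ht : ∀ s, h (true :: s) = a (h s) := fun s => by simp [h]
  have hf : ∀ s, h (false :: s) = b (h s) := fun s => by simp [h]
  have key : ∀ s, ¬ (part (setOf V) (h s)).Countable := by
    intro s
    induction s with
    | nil => exact hτ
    | cons c s ih =>
      obtain ⟨-, -, -, -, h5, h6⟩ := hab _ ih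
      cases c
      · rw [hf]; exact h6
      · rw [ht]; exact h5
  refine ⟨h, ?_, ?_, ?_, ?_⟩
  · rw [h0]
  · intro s c
    obtain ⟨h1, h2, -⟩ := hab _ (key s)
    cases c
    · rw [hf]; exact h2
    · rw [ht]; exact h1
  · intro s
    obtain ⟨-, -, h3, h4, -⟩ := hab _ (key s)
    rw [hf, ht]
    exact ⟨h3, h4⟩
  · intro s n _ e he w hw hpre
    apply key s
    have : part (setOf V) (h s) = ∅ := by
      ext y
      simp only [Set.mem_empty_iff_false, iff_false]
      rintro ⟨hy, hy2⟩
      exact hy n e he w hw (Beg_of_pre hpre hy2)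
    rw [this]
    exact Set.countable_empty

/-- the branch of `f` -/
def br (f : ℕ → Bool) : ℕ → List Bool
  | 0 => []
  | n + 1 => f n :: br f n

theorem br_length (f : ℕ → Bool) (n : ℕ) : (br f n).length = n := by
  induction n with
  | zero => rfl
  | succ n ih => simp [br, ih]

theorem Sch.not_countable {V : ℕ → List ℕ} {τ : List ℕ} {h : List Bool → List ℕ}
    (hs : Sch V τ h) : ¬ (part (setOf V) τ).Countable := by
  intro hc
  have hlt : ∀ s b, (h s).length < (h (b :: s)).length := by
    intro s b
    have h1 := (hs.ext s b).length_le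
    rcases Nat.lt_or_ge (h s).length (h (b :: s)).length with h2 | h2
    · exact h2
    · exfalso
      have h3 : h s = h (b :: s) := (hs.ext s b).eq_of_length (le_antisymm h1 h2)
      have h4 := hs.inc s
      cases b
      · exact h4.2 (h3 ▸ hs.ext s true)
      · exact h4.1 (h3 ▸ hs.ext s false)
  have hl : ∀ f n, n ≤ (h (br f n)).length := by
    intro f n
    induction n with
    | zero => exact Nat.zero_le _
    | succ n ih => exact lt_of_le_of_lt ih (hlt _ _)
  have hmono : ∀ f n, h (br f n) <+: h (br f (n + 1)) := fun f n => hs.ext _ _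
  let X : (ℕ → Bool) → Bai := fun f => lim (fun n => h (br f n))
  have hX : ∀ f n, Beg (h (br f n)) (X f) := fun f => lim_beg (hmono f) (hl f)
  have hmem : ∀ f, X f ∈ part (setOf V) τ := by
    intro f
    refine ⟨?_, Beg_of_pre hs.root (hX f 0)⟩
    intro n e he w hw hbw
    have h1 : n ≤ (br f (max n w.length)).length := by rw [br_length]; exact le_max_left _ _
    apply hs.val (br f (max n w.length)) n h1 e he w hw
    exact Beg_pre hbw (hX f _) ((le_max_right _ _).trans (hl f _))
  have hinj : Function.Injective X := by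
    intro f f' hff
    by_contra hne
    have hex : ∃ n, f n ≠ f' n := by
      by_contra hx
      push Not at hx
      exact hne (funext hx)
    classical
    let n := Nat.find hex
    have hn : f n ≠ f' n := Nat.find_spec hex
    have hmin : ∀ m < n, f m = f' m := fun m hm => by
      have := Nat.find_min hex hm
      push Not at this
      exact this
    have hbr : ∀ m ≤ n, br f m = br f' m := by
      intro m
      induction m with
      | zero => intro _; rfl
      | succ m ih =>
        intro hm
        simp only [br]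
        rw [ih (by omega), hmin m (by omega)]
    have e1 := hX f (n + 1)
    have e2 := hX f' (n + 1)
    rw [← hff] at e2
    have e3 : br f (n + 1) = f n :: br f n := rfl
    have e4 : br f' (n + 1) = f' n :: br f n := by rw [hbr n le_rfl]; rfl
    rw [e3] at e1
    rw [e4] at e2
    have h4 := hs.inc (br f n)
    rcases Beg_comp e1 e2 with h5 | h5 <;>
    · cases hc1 : f n <;> cases hc2 : f' n <;> rw [hc1] at h5 hn <;> rw [hc2] at h5 hn
      · exact hn rfl
      · first | exact h4.2 h5 | exact h4.1 h5
      · first | exact h4.2 h5 | exact h4.1 h5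
      · exact hn rfl
  have h1 : (Set.range X).Countable := hc.mono (by rintro _ ⟨f, rfl⟩; exact hmem f)
  have h2 : Countable (ℕ → Bool) := by
    rw [← Set.countable_univ_iff]
    have : (X '' Set.univ).Countable := by rwa [Set.image_univ]
    exact Set.countable_of_injective_of_countable_image hinj.injOn this
  obtain ⟨F, hF⟩ := exists_surjective_nat (ℕ → Bool)
  obtain ⟨n, hn⟩ := hF (fun n => !(F n n))
  have h3 := congrFun hn n
  simp at h3

end Pool.Agent.R575.WC
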