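import Pool.Agent.R575.WC.Loc
import Pool.Agent.R575.WC.Scheme

/-! The main argument. -/

namespace Pool.Agent.R575.WC

/-- the map coded by the row `r` of `y` -/
def hd (y : Bai) (r : ℕ) (σ : List ℕ) : List ℕ :=
  Denumerable.ofNat (List ℕ) (y (Nat.pair r (Encodable.encode σ + 1)))

/-- `y` codes comparison maps for all pairs of trees given by `x` -/
def Fst (x y : Bai) : Prop := ∀ (r : ℕ) (σ : List ℕ) (n : ℕ),
  y (Nat.pair r 0) ≤ 1 ∧
  (y (Nat.pair r 0) = 0 → UT (row x (2 * r + 1)) x σ →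
    UT (row x (2 * r)) x (hd y r σ) ∧ hd y r σ ≠ [] ∧
    (UT (row x (2 * r + 1)) x (σ ++ [n]) →
      hd y r σ <+: hd y r (σ ++ [n]) ∧ hd y r σ ≠ hd y r (σ ++ [n]))) ∧
  (y (Nat.pair r 0) = 1 → UT (row x (2 * r)) x σ →
    UT (row x (2 * r + 1)) x (hd y r σ) ∧
    (UT (row x (2 * r)) x (σ ++ [n]) →
      hd y r σ <+: hd y r (σ ++ [n]) ∧ hd y r σ ≠ hd y r (σ ++ [n])))

theorem LC.hd (r : ℕ) (σ : List ℕ) : LC (fun _ y => hd y r σ) :=
  (LC.coordy _).map (Denumerable.ofNat (List ℕ))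

theorem Fst_cl : Cl Fst := by
  refine Cl.all fun r => Cl.all fun σ => Cl.all fun n => LC.cl ?_
  have h0 : LC (fun _ y => y (Nat.pair r 0)) := LC.coordy _
  have h1 : ∀ k, LC (fun x y => UT (row x k) x (WC.hd y r σ)) := fun k =>
    LC.bind (g := fun a x _ => UT (row x k) x a) (LC.hd r σ) (fun a => LC.UT k a)
  have h2 : LC (fun _ y => WC.hd y r σ <+: WC.hd y r (σ ++ [n]) ∧
      WC.hd y r σ ≠ WC.hd y r (σ ++ [n])) :=
    (LC.hd r σ).map2 (LC.hd r (σ ++ [n])) (fun a b => a <+: b ∧ a ≠ b)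
  refine (h0.map (fun a => a ≤ 1)).and (LC.and ?_ ?_)
  · exact (h0.map (fun a => a = 0)).imp ((LC.UT _ σ).imp ((h1 _).and
      (((LC.hd r σ).map (fun a => a ≠ [])).and ((LC.UT _ _).imp h2))))
  · exact (h0.map (fun a => a = 1)).imp ((LC.UT _ σ).imp ((h1 _).and ((LC.UT _ _).imp h2)))

theorem Fst_zero {x y : Bai} (h : Fst x y) {r : ℕ} (hr : y (Nat.pair r 0) = 0) :
    Mp (UT (row x (2 * r + 1)) x) (UT (row x (2 * r)) x) (hd y r) ∧
      ∀ σ, UT (row x (2 * r + 1)) x σ → hd y r σ ≠ [] := by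
  constructor
  · intro σ hσ
    refine ⟨((h r σ 0).2.1 hr hσ).1, fun n hn => ((h r σ n).2.1 hr hσ).2.2 hn⟩
  · intro σ hσ
    exact ((h r σ 0).2.1 hr hσ).2.1

theorem Fst_one {x y : Bai} (h : Fst x y) {r : ℕ} (hr : y (Nat.pair r 0) = 1) :
    Mp (UT (row x (2 * r)) x) (UT (row x (2 * r + 1)) x) (hd y r) := by
  intro σ hσ
  exact ⟨((h r σ 0).2.2 hr hσ).1, fun n hn => ((h r σ n).2.2 hr hσ).2 hn⟩

theorem Fst_ex (x : Bai) : ∃ y, Fst x y := by
  have h : ∀ r : ℕ, ∃ i : ℕ, ∃ h : List ℕ → List ℕ, i ≤ 1 ∧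
      (i = 0 → Mp (UT (row x (2 * r + 1)) x) (UT (row x (2 * r)) x) h ∧
        ∀ σ, UT (row x (2 * r + 1)) x σ → h σ ≠ []) ∧
      (i = 1 → Mp (UT (row x (2 * r)) x) (UT (row x (2 * r + 1)) x) h) := by
    intro r
    rcases compare (UT_tree (row x (2 * r)) x) (UT_tree (row x (2 * r + 1)) x) with
      ⟨h, h1⟩ | ⟨h, h1⟩
    · exact ⟨0, h, by omega, fun _ => h1, fun h => absurd h (by omega)⟩
    · exact ⟨1, h, by omega, fun h => absurd h (by omega), fun _ => h1⟩
  choose i H hi h0 h1 using h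
  let y : Bai := fun n => if (Nat.unpair n).2 = 0 then i (Nat.unpair n).1 else
    Encodable.encode (H (Nat.unpair n).1 (Denumerable.ofNat (List ℕ) ((Nat.unpair n).2 - 1)))
  have y0 : ∀ r, y (Nat.pair r 0) = i r := by intro r; simp [y]
  have yh : ∀ r σ, hd y r σ = H r σ := by intro r σ; simp [y, hd]
  refine ⟨y, fun r σ n => ?_⟩
  rw [y0, yh, yh]
  refine ⟨hi r, fun h2 h3 => ?_, fun h2 h3 => ?_⟩
  · obtain ⟨h4, h5⟩ := h0 r h2
    exact ⟨(h4 σ h3).1, h5 σ h3, (h4 σ h3).2 n⟩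
  · exact ⟨(h1 r h2 σ h3).1, (h1 r h2 σ h3).2 n⟩

/-! ### guesses -/

theorem gs_ex (t : List ℕ) : ∃ m, m + 1 ∉ t := by
  refine ⟨t.sum, fun h => ?_⟩
  have := List.single_le_sum (l := t) (fun _ _ => Nat.zero_le _) _ h
  omega

open Classical in
/-- the least number not yet removed -/
noncomputable def gs (t : List ℕ) : ℕ := Nat.find (gs_ex t)

theorem gs_spec (t : List ℕ) : gs t + 1 ∉ t := by
  classical
  exact Nat.find_spec (gs_ex t)

theorem gs_min {t : List ℕ} {m : ℕ} (h : m < gs t) : m + 1 ∈ t := by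
  classical
  have := Nat.find_min (gs_ex t) h
  exact not_not.1 this

theorem gs_mono {t t' : List ℕ} (h : t <+: t') : gs t ≤ gs t' := by
  by_contra hc
  push Not at hc
  exact gs_spec t' (h.subset (gs_min hc))

theorem gs_eq {t : List ℕ} {m : ℕ} (h1 : m + 1 ∉ t) (h2 : ∀ k < m, k + 1 ∈ t) : gs t = m := by
  rcases lt_trichotomy (gs t) m with h | h | h
  · exact absurd (h2 _ h) (gs_spec t)
  · exact h
  · exact absurd (gs_min h) h1

/-- the six word functions of the reductions -/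
structure WF where
  F1 : List ℕ → List ℕ
  G1 : List ℕ → List ℕ
  F2 : List ℕ → List ℕ
  G2 : List ℕ → List ℕ
  F3 : List ℕ → List ℕ
  G3 : List ℕ → List ℕ
  i1 : Incr F1
  j1 : Incr G1
  i2 : Incr F2
  j2 : Incr G2
  i3 : Incr F3
  j3 : Incr G3

namespace WF

variable (D : WF)

def V (P : List ℕ) : List ℕ := D.F2 (D.F1 P)
def Q (P w : List ℕ) : List ℕ := D.G2 (pairW (D.F1 P) (pairW (D.V P) w))
def T (P w : List ℕ) : List ℕ := D.F3 (D.Q P w)
noncomputable def R (P w : List ℕ) : List ℕ :=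
  D.G3 (pairW (D.Q P w) (List.replicate w.length (gs (D.T P w))))
noncomputable def G (P w : List ℕ) : List ℕ := D.G1 (pairW P (D.R P w))

theorem Q_mono {P P' w w' : List ℕ} (hP : P <+: P') (hw : w <+: w') : D.Q P w <+: D.Q P' w' :=
  D.j2 _ _ (pairW_mono (D.i1 _ _ hP) (pairW_mono (D.i2 _ _ (D.i1 _ _ hP)) hw))

theorem T_mono {P P' w w' : List ℕ} (hP : P <+: P') (hw : w <+: w') : D.T P w <+: D.T P' w' :=
  D.i3 _ _ (D.Q_mono hP hw)

theorem rep_mono {m n a : ℕ} (h : m ≤ n) : List.replicate m a <+: List.replicate n a := by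
  obtain ⟨k, rfl⟩ := Nat.exists_eq_add_of_le h
  rw [List.replicate_add]
  exact List.prefix_append _ _

theorem G_mono {P P' w w' : List ℕ} (hP : P <+: P') (hw : w <+: w')
    (h : gs (D.T P w) = gs (D.T P' w')) : D.G P w <+: D.G P' w' := by
  unfold G R
  rw [h]
  exact D.j1 _ _ (pairW_mono hP (D.j3 _ _ (pairW_mono (D.Q_mono hP hw) (rep_mono hw.length_le))))

/-- the name of the instance -/
noncomputable def px (x : Bai) : Bai := nm Fst x
noncomputable def cc (x : Bai) (w : List ℕ) : ℕ := gs (D.T (seg (px x) w.length) w)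
noncomputable def Gam (x : Bai) (w : List ℕ) : List ℕ := D.G (seg (px x) w.length) w
noncomputable def VV (x : Bai) (n : ℕ) : List ℕ := D.V (seg (px x) n)
def AA (x : Bai) : Set Bai := setOf (D.VV x)

/-- allowed numbers: pauses and codes of words that meet the closed set in a countable set -/
def alw (x : Bai) (e : ℕ) : Prop :=
  e = 0 ∨ ∃ τ : List ℕ, e = Encodable.encode τ + 1 ∧ (part (D.AA x) τ).Countable

theorem cc_mono (x : Bai) {w w' : List ℕ} (h : w <+: w') : D.cc x w ≤ D.cc x w' :=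
  gs_mono (D.T_mono (seg_le _ h.length_le) h)

theorem Gam_mono (x : Bai) {w w' : List ℕ} (h : w <+: w') (hc : D.cc x w = D.cc x w') :
    D.Gam x w <+: D.Gam x w' :=
  D.G_mono (seg_le _ h.length_le) h hc

/-- the hypotheses -/
structure OK (f0 g0 : Prob) : Prop where
  r1 : ∀ p, (∃ q, CBaire p q) → ∃ u, Maps D.F1 p u ∧ (∃ v, comp f0 g0 u v) ∧
      ∀ v, comp f0 g0 u v → ∃ r, Maps D.G1 (pair p v) r ∧ CBaire p r
  r2 : ∀ p, (∃ q, g0 p q) → ∃ u, Maps D.F2 p u ∧ (∃ v, PK u v) ∧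
      ∀ v, PK u v → ∃ r, Maps D.G2 (pair p v) r ∧ g0 p r
  r3 : ∀ p, (∃ q, f0 p q) → ∃ u, Maps D.F3 p u ∧ (∃ v, CNat u v) ∧
      ∀ v, CNat u v → ∃ r, Maps D.G3 (pair p v) r ∧ f0 p r

theorem conv {f0 g0 : Prob} (hD : D.OK f0 g0) (x g : Bai) (h1 : ∀ n, D.alw x (g n))
    (h2 : ∀ e, D.alw x e → ∃ n, g n = e) :
    ∃ m0 y, (∃ n0, ∀ n ≥ n0, D.cc x (seg g n) = m0) ∧
      Appr (fun n => D.Gam x (seg g n)) y ∧ Fst x y := by
  have hcl : closedOf (px x) = {y | Fst x y} := nm_closed Fst_cl x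
  obtain ⟨y0, hy0⟩ := Fst_ex x
  obtain ⟨u, hu, ⟨r0, hdom, q0, hq0, -⟩, hr⟩ := hD.r1 (px x) ⟨y0, by
    show y0 ∈ closedOf (px x)
    rw [hcl]; exact hy0⟩
  obtain ⟨v, hv, -, hv2⟩ := hD.r2 u ⟨q0, hq0⟩
  -- approximations
  have a1 : Appr (fun n => seg (px x) n) (px x) := Appr_seg _
  have a2 : Appr (fun n => D.F1 (seg (px x) n)) u := a1.map D.i1 hu
  have a3 : Appr (fun n => D.V (seg (px x) n)) v := a2.map D.i2 hv
  have b3 : ∀ n, Beg (D.VV x n) v := by
    intro n
    have e1 : D.F1 (seg (px x) n) = seg u (D.F1 (seg (px x) n)).length := hu.1 n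
    show Beg (D.F2 (D.F1 (seg (px x) n))) v
    rw [e1]
    exact hv.1 _
  have hA : closedOf v = D.AA x := by
    ext z
    constructor
    · intro hz n e he w hw
      obtain ⟨i, hi, rfl⟩ := List.mem_iff_getElem.1 he
      refine hz i w ?_
      rw [← hw]
      exact (Beg_iff.1 (b3 n) i hi).symm
    · intro hz n w hn
      obtain ⟨n0, hn0⟩ := a3 (n + 1)
      obtain ⟨h3, h4⟩ := hn0 n0 le_rfl
      have h5 : n < (D.VV x n0).length := h3
      refine hz n0 ((D.VV x n0)[n]) (List.getElem_mem h5) w ?_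
      rw [Beg_iff.1 (b3 n0) n h5, hn]
  have hPK : PK v (pair v g) := by
    refine PK_of_enum hA ?_ ?_
    · intro n w hn
      rcases h1 n with h3 | ⟨τ, h3, h4⟩
      · rw [h3] at hn; exact absurd hn (by omega)
      · have h5 : Encodable.encode τ = Encodable.encode w := by omega
        rw [← Encodable.encode_injective h5]; exact h4
    · intro w hw
      exact h2 _ (Or.inr ⟨w, rfl, hw⟩)
  obtain ⟨q, hq, hgq⟩ := hv2 _ hPK
  obtain ⟨t, ht, ⟨m', hm'⟩, hm⟩ := hD.r3 q (hdom q hgq)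
  have hne : (closedNat t).Nonempty := ⟨_, hm'⟩
  let m0 := sInf (closedNat t)
  have hm0 : m0 ∈ closedNat t := Nat.sInf_mem hne
  have a4 : Appr (fun n => seg g n) g := Appr_seg g
  have a5 : Appr (fun n => pairW (D.V (seg (px x) n)) (seg g n)) (pair v g) := a3.pair a4
  have a6 := a2.pair a5
  have a7 : Appr (fun n => D.Q (seg (px x) n) (seg g n)) q := a6.map D.j2 hq
  have a8 : Appr (fun n => D.T (seg (px x) n) (seg g n)) t := a7.map D.i3 ht
  have hK : ∃ K, ∀ k < m0, ∃ n < K, t n = k + 1 := by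
    have h3 : ∀ k < m0, ∃ n, t n = k + 1 := by
      intro k hk
      have : k ∉ closedNat t := Nat.notMem_of_lt_sInf hk
      simp only [closedNat, Set.mem_ofPred_eq, not_forall, not_not] at this
      exact this
    clear_value m0
    clear hm0
    induction m0 with
    | zero => exact ⟨0, fun k hk => absurd hk (by omega)⟩
    | succ m ih =>
      obtain ⟨K, hK⟩ := ih (fun k hk => h3 k (by omega))
      obtain ⟨n, hn⟩ := h3 m (by omega)
      refine ⟨max K (n + 1), fun k hk => ?_⟩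
      rcases Nat.lt_succ_iff_lt_or_eq.1 hk with h4 | h4
      · obtain ⟨n', h5, h6⟩ := hK k h4
        exact ⟨n', by omega, h6⟩
      · exact ⟨n, by omega, h4 ▸ hn⟩
  obtain ⟨K, hK⟩ := hK
  have hgs : ∃ n0, ∀ n ≥ n0, gs (D.T (seg (px x) n) (seg g n)) = m0 := by
    obtain ⟨n0, hn0⟩ := a8 K
    refine ⟨n0, fun n hn => ?_⟩
    obtain ⟨h3, h4⟩ := hn0 n hn
    apply gs_eq
    · intro h5
      obtain ⟨i, hi, h6⟩ := List.mem_iff_getElem.1 h5
      apply hm0 i
      rw [← h6]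
      exact (Beg_iff.1 h4 i hi).symm
    · intro k hk
      obtain ⟨i, h5, h6⟩ := hK k hk
      rw [← h6]
      have h7 : i < (D.T (seg (px x) n) (seg g n)).length := lt_of_lt_of_le h5 h3
      have h8 := Beg_iff.1 h4 i h7
      exact List.mem_iff_getElem.2 ⟨i, h7, h8⟩
  have a9 : Appr (fun n => List.replicate n (gs (D.T (seg (px x) n) (seg g n)))) (fun _ => m0) := by
    intro k
    obtain ⟨n0, hn0⟩ := hgs
    refine ⟨max n0 k, fun n hn => ⟨by simp; omega, ?_⟩⟩
    show Beg (List.replicate n (gs (D.T (seg (px x) n) (seg g n)))) _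
    rw [hn0 n (by omega), Beg_iff]
    intro i hi
    simp
  obtain ⟨r, hr3, hf⟩ := hm (fun _ => m0) hm0
  have a10 : Appr (fun n => D.R (seg (px x) n) (seg g n)) r := by
    have := (a7.pair a9).map D.j3 hr3
    simpa only [R, seg_length] using this
  obtain ⟨y, hy, hy2⟩ := hr r ⟨hdom, q, hgq, hf⟩
  have a11 : Appr (fun n => D.G (seg (px x) n) (seg g n)) y := (a1.pair a10).map D.j1 hy
  refine ⟨m0, y, ?_, ?_, ?_⟩
  · obtain ⟨n0, hn0⟩ := hgs
    refine ⟨n0, fun n hn => ?_⟩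
    unfold cc
    rw [seg_length]
    exact hn0 n hn
  · simpa only [Gam, seg_length] using a11
  · have : y ∈ closedOf (px x) := hy2
    rw [hcl] at this
    exact this

open Classical in
/-- an enumeration of the allowed numbers -/
noncomputable def en (x : Bai) (n : ℕ) : ℕ := if D.alw x n then n else 0

theorem en_alw (x : Bai) (n : ℕ) : D.alw x (D.en x n) := by
  unfold en
  split
  · assumption
  · exact Or.inl rfl

theorem en_eq {x : Bai} {n : ℕ} (h : D.alw x n) : D.en x n = n := by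
  unfold en
  rw [if_pos h]

theorem stab {f0 g0 : Prob} (hD : D.OK f0 g0) (x : Bai) :
    ∃ w0 : List ℕ, (∀ e ∈ w0, D.alw x e) ∧
      ∀ w, w0 <+: w → (∀ e ∈ w, D.alw x e) → D.cc x w = D.cc x w0 := by
  classical
  by_contra hcon
  push Not at hcon
  choose ex hex using hcon
  let S : ℕ → {w : List ℕ // ∀ e ∈ w, D.alw x e} := fun n =>
    Nat.rec ⟨[], by simp⟩ (fun k s => ⟨ex s.1 s.2 ++ [D.en x k], by
      intro e he
      rcases List.mem_append.1 he with h | h
      · exact (hex s.1 s.2).2.1 e h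
      · rw [List.mem_singleton.1 h]; exact D.en_alw x k⟩) n
  have S0 : (S 0).1 = [] := rfl
  have Ss : ∀ n, (S (n + 1)).1 = ex (S n).1 (S n).2 ++ [D.en x n] := fun n => rfl
  have hmono : ∀ n, (S n).1 <+: (S (n + 1)).1 := by
    intro n
    rw [Ss]
    exact (hex (S n).1 (S n).2).1.trans (List.prefix_append _ _)
  have hlen : ∀ n, n ≤ (S n).1.length := by
    intro n
    induction n with
    | zero => exact Nat.zero_le _
    | succ n ih =>
      rw [Ss, List.length_append, List.length_singleton]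
      have := (hex (S n).1 (S n).2).1.length_le
      omega
  have hbeg := lim_beg hmono hlen
  have hcc : ∀ n, n ≤ D.cc x (S n).1 := by
    intro n
    induction n with
    | zero => exact Nat.zero_le _
    | succ n ih =>
      obtain ⟨h1, h2, h3⟩ := hex (S n).1 (S n).2
      have h4 := D.cc_mono x h1
      have h5 : D.cc x (ex (S n).1 (S n).2) ≤ D.cc x (S (n + 1)).1 := by
        rw [Ss]; exact D.cc_mono x (List.prefix_append _ _)
      omega
  have ha : ∀ n, D.alw x (lim (fun n => (S n).1) n) := by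
    intro n
    have h1 := Beg_iff.1 (hbeg (n + 1)) n (hlen (n + 1))
    rw [← h1]
    exact (S (n + 1)).2 _ (List.getElem_mem _)
  have hb : ∀ e, D.alw x e → ∃ n, lim (fun n => (S n).1) n = e := by
    intro e he
    refine ⟨(ex (S e).1 (S e).2).length, ?_⟩
    have h1 := Beg_iff.1 (hbeg (e + 1)) (ex (S e).1 (S e).2).length (by
      show _ < (S (e + 1)).1.length
      rw [Ss, List.length_append, List.length_singleton]; omega)
    rw [← h1]
    simp only [Ss]
    rw [List.getElem_append_right (le_refl _)]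
    simp [D.en_eq he]
  obtain ⟨m0, y, ⟨n0, hn0⟩, -, -⟩ := D.conv hD x (lim (fun n => (S n).1)) ha hb
  have h1 := hn0 (S (max n0 (m0 + 1))).1.length ((le_max_left _ _).trans (hlen _))
  have h2 : (S (max n0 (m0 + 1))).1 = seg (lim (fun n => (S n).1)) (S (max n0 (m0 + 1))).1.length :=
    hbeg _
  rw [← h2] at h1
  have h3 := hcc (max n0 (m0 + 1))
  omega

theorem extend {f0 g0 : Prob} (hD : D.OK f0 g0) (x : Bai) {w0 : List ℕ}
    (hst : ∀ w, w0 <+: w → (∀ e ∈ w, D.alw x e) → D.cc x w = D.cc x w0)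
    {q : List ℕ} (hq : w0 <+: q) (hqa : ∀ e ∈ q, D.alw x e) :
    ∃ y, Fst x y ∧ Beg (D.Gam x q) y ∧ ∀ N, ∃ q', w0 <+: q' ∧ (∀ e ∈ q', D.alw x e) ∧
      N ≤ (D.Gam x q').length ∧ Beg (D.Gam x q') y := by
  let g : Bai := fun k => if h : k < q.length then q[k] else D.en x (k - q.length)
  have hg : Beg q g := by
    rw [Beg_iff]
    intro i hi
    simp [g, hi]
  have hga : ∀ n, D.alw x (g n) := by
    intro n
    by_cases h : n < q.length
    · simp only [g, h, dif_pos]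
      exact hqa _ (List.getElem_mem _)
    · simp only [g, h]
      exact D.en_alw x _
  obtain ⟨m0, y, -, h2, h3⟩ := D.conv hD x g hga (by
    intro e he
    refine ⟨q.length + e, ?_⟩
    simp [g, D.en_eq he])
  have hsa : ∀ n, ∀ e ∈ seg g n, D.alw x e := by
    intro n e he
    obtain ⟨i, hi, rfl⟩ := List.mem_iff_getElem.1 he
    rw [seg_getElem]
    exact hga i
  have hsq : ∀ n, q.length ≤ n → q <+: seg g n := fun n hn =>
    Beg_pre hg (Beg_seg g n) (by simpa using hn)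
  refine ⟨y, h3, ?_, ?_⟩
  · obtain ⟨n0, hn0⟩ := h2 0
    have h4 := (hn0 (max n0 q.length) (le_max_left _ _)).2
    have h5 := hsq (max n0 q.length) (le_max_right _ _)
    refine Beg_of_pre (D.Gam_mono x h5 ?_) h4
    rw [hst q hq hqa, hst _ (hq.trans h5) (hsa _)]
  · intro N
    obtain ⟨n0, hn0⟩ := h2 N
    have h4 := hn0 (max n0 q.length) (le_max_left _ _)
    have h5 := hsq (max n0 q.length) (le_max_right _ _)
    exact ⟨_, hq.trans h5, hsa _, h4.1, h4.2⟩

/-- the relation `i` is decided at `r` -/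
def Cdec (i r : ℕ) (x : Bai) : Prop :=
  ∃ q : List ℕ, Denumerable.ofNat (List ℕ) r <+: q ∧ (∀ e ∈ q, D.alw x e) ∧
    (D.Gam x q)[Nat.pair r 0]? = some i

/-- the scheme coded by `z` at `q` -/
def HH (z : Bai) (q : List ℕ) (s : List Bool) : List ℕ :=
  Denumerable.ofNat (List ℕ) (z (Nat.pair (Encodable.encode q) (Encodable.encode s + 1)))

/-- `z` witnesses that `Cdec i r x` fails -/
def Wit (i r : ℕ) (x z : Bai) : Prop := ∀ (q : List ℕ) (s : List Bool) (n : ℕ),
  (D.Gam x q)[Nat.pair r 0]? = some i → (Denumerable.ofNat (List ℕ) r <+: q →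
    (∃ τ : List ℕ, q[z (Nat.pair (Encodable.encode q) 0)]? = some (Encodable.encode τ + 1) ∧
      τ <+: HH z q []) ∧
    ((HH z q s <+: HH z q (true :: s) ∧ HH z q s <+: HH z q (false :: s)) ∧
    (¬ HH z q (true :: s) <+: HH z q (false :: s) ∧
      ¬ HH z q (false :: s) <+: HH z q (true :: s)) ∧
    (n ≤ s.length → ∀ e ∈ D.VV x n, ∀ w, e = Encodable.encode (w : List ℕ) + 1 →
      ¬ w <+: HH z q s)))

theorem Wit_cl (i r : ℕ) : Cl (D.Wit i r) := by
  refine Cl.all fun q => Cl.all fun s => Cl.all fun n => LC.cl ?_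
  have hG : LC (fun x _ => D.Gam x q) := (LC.segnm Fst q.length).map (fun P => D.G P q)
  have hV : LC (fun x _ => D.VV x n) := (LC.segnm Fst n).map (fun P => D.V P)
  have hH : ∀ s, LC (fun _ z => HH z q s) := fun s =>
    (LC.coordy _).map (Denumerable.ofNat (List ℕ))
  refine (hG.map (fun l => l[Nat.pair r 0]? = some i)).imp ((LC.const _).imp (LC.and ?_
    (LC.and (LC.and ?_ ?_) (LC.and ?_ ?_))))
  · exact (LC.coordy (Nat.pair (Encodable.encode q) 0)).map2 (hH [])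
      (fun a b => ∃ τ : List ℕ, q[a]? = some (Encodable.encode τ + 1) ∧ τ <+: b)
  · exact (hH s).map2 (hH (true :: s)) (fun a b => a <+: b)
  · exact (hH s).map2 (hH (false :: s)) (fun a b => a <+: b)
  · exact (hH (true :: s)).map2 (hH (false :: s)) (fun a b => ¬ a <+: b ∧ ¬ b <+: a)
  · exact (LC.const _).imp (hV.map2 (hH s) (fun l a => ∀ e ∈ l, ∀ w,
      e = Encodable.encode (w : List ℕ) + 1 → ¬ w <+: a))

theorem Wit_iff (i r : ℕ) (x : Bai) : (∃ z, D.Wit i r x z) ↔ ¬ D.Cdec i r x := by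
  constructor
  · rintro ⟨z, hz⟩ ⟨q, h1, h2, h3⟩
    obtain ⟨⟨τ, h4, h5⟩, -⟩ := hz q [] 0 h3 h1
    have hs : Sch (D.VV x) τ (HH z q) := by
      refine ⟨h5, fun s b => ?_, fun s => (hz q s 0 h3 h1).2.2.1, fun s n hn e he w hw =>
        (hz q s n h3 h1).2.2.2 hn e he w hw⟩
      cases b
      · exact (hz q s 0 h3 h1).2.1.2
      · exact (hz q s 0 h3 h1).2.1.1
    obtain ⟨hi, h6⟩ := List.getElem?_eq_some_iff.1 h4
    rcases h2 _ (List.getElem_mem hi) with h7 | ⟨τ', h7, h8⟩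
    · rw [h6] at h7; exact absurd h7 (by omega)
    · rw [h6] at h7
      have h9 : Encodable.encode τ = Encodable.encode τ' := by omega
      rw [← Encodable.encode_injective h9] at h8
      exact hs.not_countable h8
  · intro h
    classical
    have key : ∀ q : List ℕ, ∃ j : ℕ, ∃ H : List Bool → List ℕ,
        (D.Gam x q)[Nat.pair r 0]? = some i → Denumerable.ofNat (List ℕ) r <+: q →
          ∃ τ : List ℕ, q[j]? = some (Encodable.encode τ + 1) ∧ Sch (D.VV x) τ H := by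
      intro q
      by_cases h1 : (D.Gam x q)[Nat.pair r 0]? = some i
      swap
      · exact ⟨0, fun _ => [], fun h2 => absurd h2 h1⟩
      by_cases h2 : Denumerable.ofNat (List ℕ) r <+: q
      swap
      · exact ⟨0, fun _ => [], fun _ h3 => absurd h3 h2⟩
      have h3 : ¬ ∀ e ∈ q, D.alw x e := fun h3 => h ⟨q, h2, h3, h1⟩
      push Not at h3
      obtain ⟨e, he, hne⟩ := h3
      obtain ⟨j, hj, rfl⟩ := List.mem_iff_getElem.1 he
      unfold alw at hne
      push Not at hne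
      obtain ⟨hne0, hne1⟩ := hne
      have h4 : q[j] = Encodable.encode (Denumerable.ofNat (List ℕ) (q[j] - 1)) + 1 := by
        rw [Denumerable.encode_ofNat]; omega
      obtain ⟨H, hH⟩ := exists_sch (hne1 _ h4)
      refine ⟨j, H, fun _ _ => ⟨Denumerable.ofNat (List ℕ) (q[j] - 1), ?_, hH⟩⟩
      rw [← h4]
      exact List.getElem?_eq_getElem hj
    choose j H hH using key
    let z : Bai := fun n => if (Nat.unpair n).2 = 0 then
        j (Denumerable.ofNat (List ℕ) (Nat.unpair n).1)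
      else Encodable.encode (H (Denumerable.ofNat (List ℕ) (Nat.unpair n).1)
        ((Encodable.decode (α := List Bool) ((Nat.unpair n).2 - 1)).getD []))
    have z0 : ∀ q : List ℕ, z (Nat.pair (Encodable.encode q) 0) = j q := by intro q; simp [z]
    have zh : ∀ q s, HH z q s = H q s := by intro q s; simp [z, HH]
    refine ⟨z, fun q s n h1 h2 => ?_⟩
    obtain ⟨τ, h3, h4⟩ := hH q h1 h2
    rw [z0, zh, zh, zh, zh]
    exact ⟨⟨τ, h3, h4.root⟩, ⟨h4.ext s true, h4.ext s false⟩, h4.inc s, h4.val s n⟩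

theorem contradiction {f0 g0 : Prob} (hD : D.OK f0 g0) : False := by
  let x : Bai := fun n => if (Nat.unpair n).1 % 2 = 0 then
      cd (D.Wit 0 ((Nat.unpair n).1 / 2)) (Nat.unpair n).2
    else cd (D.Wit 1 ((Nat.unpair n).1 / 2)) (Nat.unpair n).2
  have x0 : ∀ r, row x (2 * r) = cd (D.Wit 0 r) := by
    intro r; funext n
    simp [row, x]
  have x1 : ∀ r, row x (2 * r + 1) = cd (D.Wit 1 r) := by
    intro r; funext n
    have h1 : (2 * r + 1) % 2 = 1 := by omega
    have h2 : (2 * r + 1) / 2 = r := by omega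
    simp [row, x, h1, h2]
  have p0 : ∀ r, Path (UT (row x (2 * r)) x) ↔ ¬ D.Cdec 0 r x := by
    intro r
    rw [← D.Wit_iff, x0]
    exact exists_congr fun z => cd_path (D.Wit_cl 0 r) x z
  have p1 : ∀ r, Path (UT (row x (2 * r + 1)) x) ↔ ¬ D.Cdec 1 r x := by
    intro r
    rw [← D.Wit_iff, x1]
    exact exists_congr fun z => cd_path (D.Wit_cl 1 r) x z
  obtain ⟨w0, hw0, hst⟩ := D.stab hD x
  let r := Encodable.encode w0
  have hr : Denumerable.ofNat (List ℕ) r = w0 := Denumerable.ofNat_encode w0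
  have tA := UT_tree (row x (2 * r)) x
  have tB := UT_tree (row x (2 * r + 1)) x
  have hab : D.Cdec 0 r x ∨ D.Cdec 1 r x := by
    obtain ⟨y, h1, -, h3⟩ := D.extend hD x hst List.prefix_rfl hw0
    obtain ⟨q', h4, h5, h6, h7⟩ := h3 (Nat.pair r 0 + 1)
    have h8 : (D.Gam x q')[Nat.pair r 0]? = some (y (Nat.pair r 0)) := by
      rw [List.getElem?_eq_getElem (by omega), Beg_iff.1 h7]
    have h9 := (h1 r [] 0).1
    rcases Nat.le_one_iff_eq_zero_or_eq_one.1 h9 with h | h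
    · exact Or.inl ⟨q', by rw [hr]; exact h4, h5, by rw [h8, h]⟩
    · exact Or.inr ⟨q', by rw [hr]; exact h4, h5, by rw [h8, h]⟩
  have hval : ∀ i, D.Cdec i r x → ∃ y, Fst x y ∧ y (Nat.pair r 0) = i := by
    rintro i ⟨q, h1, h2, h3⟩
    rw [hr] at h1
    obtain ⟨y, h4, h5, -⟩ := D.extend hD x hst h1 h2
    refine ⟨y, h4, ?_⟩
    obtain ⟨hi, h6⟩ := List.getElem?_eq_some_iff.1 h3
    rw [← Beg_iff.1 h5 _ hi, h6]
  have hf : D.Cdec 0 r x → ∃ f, Mp (UT (row x (2 * r + 1)) x) (UT (row x (2 * r)) x) f ∧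
      ∀ σ, UT (row x (2 * r + 1)) x σ → f σ ≠ [] := by
    intro h
    obtain ⟨y, h1, h2⟩ := hval 0 h
    exact ⟨_, Fst_zero h1 h2⟩
  have hg : D.Cdec 1 r x → ∃ f, Mp (UT (row x (2 * r)) x) (UT (row x (2 * r + 1)) x) f := by
    intro h
    obtain ⟨y, h1, h2⟩ := hval 1 h
    exact ⟨_, Fst_one h1 h2⟩
  have h01 : D.Cdec 0 r x → D.Cdec 1 r x := by
    intro h
    obtain ⟨f, hf1, -⟩ := hf h
    by_contra h1
    have h2 : Path (UT (row x (2 * r + 1)) x) := (p1 r).2 h1
    exact (p0 r).1 (hf1.path tB tA h2) h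
  have h10 : D.Cdec 1 r x → D.Cdec 0 r x := by
    intro h
    obtain ⟨f, hf1⟩ := hg h
    by_contra h1
    have h2 : Path (UT (row x (2 * r)) x) := (p0 r).2 h1
    exact (p1 r).1 (hf1.path tA tB h2) h
  have hboth : D.Cdec 0 r x ∧ D.Cdec 1 r x := by
    rcases hab with h | h
    · exact ⟨h, h01 h⟩
    · exact ⟨h10 h, h⟩
  obtain ⟨f, hf1, hf2⟩ := hf hboth.1
  obtain ⟨g, hg1⟩ := hg hboth.2
  exact (p0 r).1 (path_of_two tA tB hf1 hf2 hg1) hboth.1

end WF

/-- Choice on Baire space is not below the compositional product, even topologically. -/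
theorem not_TRedProd : ¬ TRedProd CBaire CNat PK := by
  rintro ⟨f0, g0, ⟨F3, G3, -, -, i3, j3, h3⟩, ⟨F2, G2, -, -, i2, j2, h2⟩,
    ⟨F1, G1, -, -, i1, j1, h1⟩⟩
  exact WF.contradiction ⟨F1, G1, F2, G2, F3, G3, i1, j1, i2, j2, i3, j3⟩
    (f0 := f0) (g0 := g0) ⟨h1, h2, h3⟩

theorem TRed_of_WRed {f g : Prob} (h : WRed f g) : TRed f g := by
  obtain ⟨F, G, -, -, h3⟩ := h
  exact ⟨F, G, trivial, trivial, h3⟩

theorem not_WRedProd : ¬ WRedProd CBaire CNat PK := by
  rintro ⟨f0, g0, h1, h2, h3⟩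
  exact not_TRedProd ⟨f0, g0, TRed_of_WRed h1, TRed_of_WRed h2, TRed_of_WRed h3⟩

end Pool.Agent.R575.WC
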