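import Pool.Agent.R575.WC.Words

/-! Comparison of trees by strictly increasing maps. -/

namespace Pool.Agent.R575.WC

/-- trees of words: closed under initial segments, containing the empty word -/
structure IsTree (T : List ℕ → Prop) : Prop where
  nil : T []
  down : ∀ u w, u <+: w → T w → T u

/-- `h` is a strictly increasing map from `S` to `T` -/
def Mp (S T : List ℕ → Prop) (h : List ℕ → List ℕ) : Prop :=
  ∀ σ, S σ → T (h σ) ∧ ∀ n, S (σ ++ [n]) → h σ <+: h (σ ++ [n]) ∧ h σ ≠ h (σ ++ [n])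

/-- `T` has an infinite branch -/
def Path (T : List ℕ → Prop) : Prop := ∃ z, ∀ n, T (seg z n)

theorem Mp.le {S T : List ℕ → Prop} {h : List ℕ → List ℕ} (hS : IsTree S) (hm : Mp S T h)
    (σ ρ : List ℕ) (hs : S (σ ++ ρ)) : h σ <+: h (σ ++ ρ) ∧ (ρ ≠ [] → h σ ≠ h (σ ++ ρ)) := by
  induction ρ using List.reverseRecOn with
  | nil => simp
  | append_singleton ρ n ih =>
    have h1 : S (σ ++ ρ) := hS.down _ _ (by rw [← List.append_assoc]; exact List.prefix_append _ _) hs
    obtain ⟨h2, -⟩ := ih h1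
    obtain ⟨-, h3⟩ := hm _ h1
    rw [← List.append_assoc] at hs ⊢
    obtain ⟨h4, h5⟩ := h3 n hs
    refine ⟨h2.trans h4, fun _ h6 => h5 ?_⟩
    have h7 := h2.length_le
    have h8 := h4.length_le
    rw [h6] at h7
    exact h4.eq_of_length (le_antisymm h8 h7)

theorem Mp.lt {S T : List ℕ → Prop} {h : List ℕ → List ℕ} (hS : IsTree S) (hm : Mp S T h)
    {σ σ' : List ℕ} (hp : σ <+: σ') (hne : σ ≠ σ') (hs : S σ') :
    h σ <+: h σ' ∧ h σ ≠ h σ' := by
  obtain ⟨ρ, rfl⟩ := hp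
  obtain ⟨h1, h2⟩ := hm.le hS σ ρ hs
  exact ⟨h1, h2 (by rintro rfl; simp at hne)⟩

/-- a strictly increasing sequence of nodes gives an infinite branch -/
theorem path_of_chain {T : List ℕ → Prop} (hT : IsTree T) (w : ℕ → List ℕ) (hw : ∀ n, T (w n))
    (hm : ∀ n, w n <+: w (n + 1) ∧ w n ≠ w (n + 1)) : Path T := by
  have hl : ∀ n, n ≤ (w n).length := by
    intro n
    induction n with
    | zero => exact Nat.zero_le _
    | succ n ih =>
      have h1 := (hm n).1.length_le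
      have h2 : (w n).length ≠ (w (n + 1)).length := fun h => (hm n).2 ((hm n).1.eq_of_length h)
      omega
  refine ⟨lim w, fun n => ?_⟩
  exact hT.down _ _ (Beg_ge (lim_beg (fun n => (hm n).1) hl n) (hl n)) (hw n)

theorem Mp.path {S T : List ℕ → Prop} {h : List ℕ → List ℕ} (hS : IsTree S) (hT : IsTree T)
    (hm : Mp S T h) (hp : Path S) : Path T := by
  obtain ⟨z, hz⟩ := hp
  refine path_of_chain hT (fun n => h (seg z n)) (fun n => (hm _ (hz n)).1) (fun n => ?_)
  refine hm.lt hS (seg_le z (Nat.le_succ n)) ?_ (hz (n + 1))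
  intro h1
  have := congrArg List.length h1
  simp at this

/-- the diagonal contradiction -/
theorem path_of_two {S T : List ℕ → Prop} {f g : List ℕ → List ℕ} (hS : IsTree S)
    (hT : IsTree T) (hf : Mp T S f) (hf0 : ∀ σ, T σ → f σ ≠ []) (hg : Mp S T g) : Path S := by
  let w : ℕ → List ℕ := fun n => Nat.rec [] (fun _ σ => f (g σ)) n
  have w0 : w 0 = [] := rfl
  have ws : ∀ n, w (n + 1) = f (g (w n)) := fun n => rfl
  have hw : ∀ n, S (w n) := by
    intro n
    induction n with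
    | zero => exact hS.nil
    | succ n ih => rw [ws]; exact (hf _ (hg _ ih).1).1
  refine path_of_chain hS w hw ?_
  intro n
  induction n with
  | zero =>
    rw [w0]
    refine ⟨List.nil_prefix, fun h => ?_⟩
    exact hf0 _ (hg _ (hw 0)).1 (by rw [← ws 0, ← h])
  | succ n ih =>
    obtain ⟨h1, h2⟩ := ih
    obtain ⟨h3, h4⟩ := hg.lt hS h1 h2 (hw (n + 1))
    obtain ⟨h5, h6⟩ := hf.lt hT h3 h4 (hg _ (hw (n + 1))).1
    rw [ws n, ws (n + 1)]
    exact ⟨h5, h6⟩

/-- the child relation of a tree -/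
def Chd (T : List ℕ → Prop) (σ' σ : List ℕ) : Prop := T σ' ∧ ∃ n, σ' = σ ++ [n]

theorem chd_wf {T : List ℕ → Prop} (hT : IsTree T) (h : ¬ Path T) : WellFounded (Chd T) := by
  rw [wellFounded_iff_isEmpty_descending_chain]
  constructor
  rintro ⟨e, he⟩
  apply h
  refine path_of_chain hT (fun n => e (n + 1)) ?_ ?_
  · intro n
    have : Chd T (e (n + 1)) (e n) := he n
    exact this.1
  · intro n
    have : Chd T (e (n + 1 + 1)) (e (n + 1)) := he (n + 1)
    obtain ⟨-, k, hk⟩ := this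
    rw [hk]
    refine ⟨List.prefix_append _ _, fun h => ?_⟩
    have := congrArg List.length h
    simp at this

/-- building a map from a local property -/
theorem build {S T : List ℕ → Prop} (hS : IsTree S) (Inv : List ℕ → List ℕ → Prop)
    (hT : ∀ σ τ, Inv σ τ → T τ)
    (hst : ∀ σ τ n, Inv σ τ → S (σ ++ [n]) → ∃ τ', Inv (σ ++ [n]) τ' ∧ τ <+: τ' ∧ τ ≠ τ')
    (τ0 : List ℕ) (h0 : Inv [] τ0) : ∃ h, Mp S T h ∧ ∀ σ, S σ → τ0 <+: h σ := by
  classical
  have hst' : ∀ σ τ n, ∃ τ', Inv σ τ → S (σ ++ [n]) → Inv (σ ++ [n]) τ' ∧ τ <+: τ' ∧ τ ≠ τ' := by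
    intro σ τ n
    by_cases h1 : Inv σ τ ∧ S (σ ++ [n])
    · obtain ⟨τ', h2⟩ := hst σ τ n h1.1 h1.2
      exact ⟨τ', fun _ _ => h2⟩
    · exact ⟨[], fun h2 h3 => absurd ⟨h2, h3⟩ h1⟩
  choose nx hnx using hst'
  let G : List ℕ → List ℕ := fun l => List.rec τ0 (fun n s r => nx s.reverse r n) l
  have G0 : G [] = τ0 := rfl
  have Gc : ∀ n s, G (n :: s) = nx s.reverse (G s) n := fun n s => rfl
  let h : List ℕ → List ℕ := fun σ => G σ.reverse
  have h0' : h [] = τ0 := rfl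
  have hs' : ∀ σ n, h (σ ++ [n]) = nx σ (h σ) n := by
    intro σ n
    show G (σ ++ [n]).reverse = _
    rw [List.reverse_append]
    show G (n :: σ.reverse) = _
    rw [Gc, List.reverse_reverse]
  have key : ∀ σ, S σ → Inv σ (h σ) ∧ τ0 <+: h σ := by
    intro σ
    induction σ using List.reverseRecOn with
    | nil => intro _; exact ⟨h0, List.prefix_rfl⟩
    | append_singleton σ n ih =>
      intro hs
      obtain ⟨h1, h2⟩ := ih (hS.down _ _ (List.prefix_append _ _) hs)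
      obtain ⟨h3, h4, -⟩ := hnx σ (h σ) n h1 hs
      rw [hs']
      exact ⟨h3, h2.trans h4⟩
  refine ⟨h, fun σ hσ => ⟨hT _ _ (key σ hσ).1, fun n hn => ?_⟩, fun σ hσ => (key σ hσ).2⟩
  obtain ⟨-, h4, h5⟩ := hnx σ (h σ) n (key σ hσ).1 hn
  rw [hs']
  exact ⟨h4, h5⟩

/-- Comparison of two trees. -/
theorem compare {A B : List ℕ → Prop} (hA : IsTree A) (hB : IsTree B) :
    (∃ h, Mp B A h ∧ ∀ σ, B σ → h σ ≠ []) ∨ ∃ h, Mp A B h := by
  by_cases pA : Path A
  · left
    obtain ⟨z, hz⟩ := pA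
    refine ⟨fun σ => seg z (σ.length + 1), fun σ _ => ⟨hz _, fun n _ => ⟨?_, ?_⟩⟩, fun σ _ h => ?_⟩
    · exact seg_le z (by simp)
    · intro h; have := congrArg List.length h; simp at this
    · have := congrArg List.length h; simp at this
  by_cases pB : Path B
  · right
    obtain ⟨z, hz⟩ := pB
    refine ⟨fun σ => seg z σ.length, fun σ _ => ⟨hz _, fun n _ => ⟨?_, ?_⟩⟩⟩
    · exact seg_le z (by simp)
    · intro h; have := congrArg List.length h; simp at this
  have wA := chd_wf hA pA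
  have wB := chd_wf hB pB
  have : IsWellFounded _ (Chd A) := ⟨wA⟩
  have : IsWellFounded _ (Chd B) := ⟨wB⟩
  let rA : List ℕ → Ordinal.{0} := IsWellFounded.rank (Chd A)
  let rB : List ℕ → Ordinal.{0} := IsWellFounded.rank (Chd B)
  have stepg : ∀ (S T : List ℕ → Prop) [IsWellFounded _ (Chd S)] [IsWellFounded _ (Chd T)]
      (σ' τ : List ℕ), IsWellFounded.rank (Chd S) σ' < IsWellFounded.rank (Chd T) τ →
      ∃ n, T (τ ++ [n]) ∧ IsWellFounded.rank (Chd S) σ' ≤ IsWellFounded.rank (Chd T) (τ ++ [n]) := by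
    intro S T _ _ σ' τ h
    by_contra hcon
    push Not at hcon
    rw [IsWellFounded.rank_eq (Chd T) τ] at h
    revert h
    rw [imp_false, not_lt]
    apply Ordinal.iSup_le
    rintro ⟨τ', h1, n, rfl⟩
    exact Order.succ_le_of_lt (hcon n h1)
  rcases le_or_gt (rA []) (rB []) with h | h
  · right
    obtain ⟨h, hh, -⟩ := build (S := A) (T := B) hA (fun σ τ => B τ ∧ rA σ ≤ rB τ)
      (fun σ τ h => h.1) (by
        rintro σ τ n ⟨h1, h2⟩ h3
        have h4 : rA (σ ++ [n]) < rA σ := IsWellFounded.rank_lt_of_rel (r := Chd A) ⟨h3, n, rfl⟩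
        obtain ⟨k, h5, h6⟩ := stepg A B (σ ++ [n]) τ (lt_of_lt_of_le h4 h2)
        refine ⟨τ ++ [k], ⟨h5, h6⟩, List.prefix_append _ _, fun h => ?_⟩
        have := congrArg List.length h
        simp at this) [] ⟨hB.nil, h⟩
    exact ⟨h, hh⟩
  · left
    obtain ⟨k, h5, h6⟩ := stepg B A [] [] h
    obtain ⟨h, hh, h7⟩ := build (S := B) (T := A) hB (fun σ τ => A τ ∧ rB σ ≤ rA τ)
      (fun σ τ h => h.1) (by
        rintro σ τ n ⟨h1, h2⟩ h3
        have h4 : rB (σ ++ [n]) < rB σ := IsWellFounded.rank_lt_of_rel (r := Chd B) ⟨h3, n, rfl⟩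
        obtain ⟨k, h5, h6⟩ := stepg B A (σ ++ [n]) τ (lt_of_lt_of_le h4 h2)
        refine ⟨τ ++ [k], ⟨h5, h6⟩, List.prefix_append _ _, fun h => ?_⟩
        have := congrArg List.length h
        simp at this) ([] ++ [k]) ⟨h5, h6⟩
    refine ⟨h, hh, fun σ hσ h8 => ?_⟩
    have := (h7 σ hσ).length_le
    rw [h8] at this
    simp at this

end Pool.Agent.R575.WC
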