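import Pool.Agent.R575.WC.Defs

namespace Pool.Agent.R575.WC

@[simp] theorem seg_length (p : Bai) (n : ℕ) : (seg p n).length = n := by simp [seg]

@[simp] theorem seg_zero (p : Bai) : seg p 0 = [] := rfl

theorem seg_getElem (p : Bai) (n i : ℕ) (h : i < (seg p n).length) : (seg p n)[i] = p i := by
  simp [seg]

theorem seg_succ (p : Bai) (n : ℕ) : seg p (n + 1) = seg p n ++ [p n] := by
  simp [seg, List.range_succ]

theorem seg_le (p : Bai) {m n : ℕ} (h : m ≤ n) : seg p m <+: seg p n := by
  induction n, h using Nat.le_induction with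
  | base => exact List.prefix_rfl
  | succ n _ ih => rw [seg_succ]; exact ih.trans (List.prefix_append _ _)

theorem seg_ext {p q : Bai} {n : ℕ} (h : ∀ i < n, p i = q i) : seg p n = seg q n := by
  apply List.ext_getElem
  · simp
  · intro i h1 h2
    rw [seg_getElem, seg_getElem]
    exact h i (by simpa using h1)

theorem seg_inj {p q : Bai} {n : ℕ} (h : seg p n = seg q n) : ∀ i < n, p i = q i := by
  intro i hi
  have h1 : (seg p n)[i]'(by simpa using hi) = (seg q n)[i]'(by simpa using hi) := by
    simp only [h]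
  rw [seg_getElem, seg_getElem] at h1
  exact h1

theorem Beg_seg (p : Bai) (n : ℕ) : Beg (seg p n) p := by
  unfold Beg; rw [seg_length]

theorem Beg_nil (p : Bai) : Beg [] p := rfl

theorem Beg_iff {w : List ℕ} {p : Bai} :
    Beg w p ↔ ∀ i (h : i < w.length), w[i] = p i := by
  constructor
  · intro h i hi
    have : w = seg p w.length := h
    have h1 : w[i] = (seg p w.length)[i]'(by simpa using hi) := by
      congr 1
    rw [h1, seg_getElem]
  · intro h
    apply List.ext_getElem
    · simp
    · intro i h1 h2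
      rw [seg_getElem]; exact h i h1

theorem Beg_of_pre {u w : List ℕ} {p : Bai} (h : u <+: w) (hw : Beg w p) : Beg u p := by
  rw [Beg_iff] at hw ⊢
  intro i hi
  rw [← hw i (lt_of_lt_of_le hi h.length_le)]
  exact h.getElem hi

theorem Beg_pre {u w : List ℕ} {p : Bai} (hu : Beg u p) (hw : Beg w p)
    (h : u.length ≤ w.length) : u <+: w := by
  have h1 : u = seg p u.length := hu
  have h2 : w = seg p w.length := hw
  rw [h1, h2]
  exact seg_le p h

theorem Beg_comp {u w : List ℕ} {p : Bai} (hu : Beg u p) (hw : Beg w p) :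
    u <+: w ∨ w <+: u := by
  rcases le_total u.length w.length with h | h
  · exact Or.inl (Beg_pre hu hw h)
  · exact Or.inr (Beg_pre hw hu h)

theorem Beg_ge {w : List ℕ} {p : Bai} {n : ℕ} (hw : Beg w p) (h : n ≤ w.length) :
    seg p n <+: w := Beg_pre (Beg_seg p n) hw (by simpa using h)

/-- the limit of an increasing sequence of words -/
def lim (w : ℕ → List ℕ) : Bai := fun k => (w (k + 1)).getD k 0

theorem lim_beg {w : ℕ → List ℕ} (h : ∀ n, w n <+: w (n + 1)) (hl : ∀ n, n ≤ (w n).length) :
    ∀ n, Beg (w n) (lim w) := by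
  have hm : ∀ m n, m ≤ n → w m <+: w n := by
    intro m n hmn
    induction n, hmn using Nat.le_induction with
    | base => exact List.prefix_rfl
    | succ n _ ih => exact ih.trans (h n)
  intro n
  rw [Beg_iff]
  intro i hi
  unfold lim
  have h1 : i < (w (i + 1)).length := hl (i + 1)
  rw [List.getD_eq_getElem _ _ h1]
  rcases le_total n (i + 1) with h2 | h2
  · exact (hm _ _ h2).getElem hi
  · exact ((hm _ _ h2).getElem h1).symm

/-- pairing of words -/
def pairW (u v : List ℕ) : List ℕ :=
  seg (pair (fun i => u.getD i 0) (fun i => v.getD i 0)) (2 * min u.length v.length)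

theorem pairW_length (u v : List ℕ) : (pairW u v).length = 2 * min u.length v.length := by
  simp [pairW]

theorem pairW_beg {u v : List ℕ} {p q : Bai} (hu : Beg u p) (hv : Beg v q) :
    Beg (pairW u v) (pair p q) := by
  unfold Beg
  rw [pairW_length]
  unfold pairW
  apply seg_ext
  intro i hi
  have h1 : i / 2 < u.length := by omega
  have h2 : i / 2 < v.length := by omega
  unfold pair
  split
  · simp only [List.getD_eq_getElem _ _ h1]
    exact Beg_iff.1 hu _ h1
  · simp only [List.getD_eq_getElem _ _ h2]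
    exact Beg_iff.1 hv _ h2

/-- every word is an initial segment of something -/
theorem exists_beg (u : List ℕ) : Beg u (fun i => u.getD i 0) := by
  rw [Beg_iff]
  intro i hi
  exact (List.getD_eq_getElem _ _ hi).symm

theorem pairW_mono {u u' v v' : List ℕ} (hu : u <+: u') (hv : v <+: v') :
    pairW u v <+: pairW u' v' := by
  have h1 := pairW_beg (Beg_of_pre hu (exists_beg u')) (Beg_of_pre hv (exists_beg v'))
  have h2 := pairW_beg (exists_beg u') (exists_beg v')
  refine Beg_pre h1 h2 ?_
  rw [pairW_length, pairW_length]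
  have := hu.length_le
  have := hv.length_le
  omega

/-- a sequence of words that eventually approximates `p` -/
def Appr (w : ℕ → List ℕ) (p : Bai) : Prop :=
  ∀ k, ∃ n0, ∀ n ≥ n0, k ≤ (w n).length ∧ Beg (w n) p

theorem Appr_seg (p : Bai) : Appr (fun n => seg p n) p := by
  intro k
  exact ⟨k, fun n hn => ⟨by simpa using hn, Beg_seg p n⟩⟩

theorem Appr.map {w : ℕ → List ℕ} {p q : Bai} {F : List ℕ → List ℕ} (h : Appr w p)
    (hF : Incr F) (hm : Maps F p q) : Appr (fun n => F (w n)) q := by
  intro k
  obtain ⟨m, hk⟩ := hm.2 k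
  obtain ⟨n0, hn0⟩ := h m
  refine ⟨n0, fun n hn => ?_⟩
  obtain ⟨h1, h2⟩ := hn0 n hn
  constructor
  · exact hk.trans (hF _ _ (Beg_ge h2 h1)).length_le
  · have h3 : w n = seg p (w n).length := h2
    show Beg (F (w n)) q
    rw [h3]
    exact hm.1 _

theorem Appr.pair {w w' : ℕ → List ℕ} {p p' : Bai} (h : Appr w p) (h' : Appr w' p') :
    Appr (fun n => pairW (w n) (w' n)) (pair p p') := by
  intro k
  obtain ⟨n0, hn0⟩ := h k
  obtain ⟨n1, hn1⟩ := h' k
  refine ⟨max n0 n1, fun n hn => ?_⟩
  obtain ⟨h1, h2⟩ := hn0 n (le_trans (le_max_left _ _) hn)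
  obtain ⟨h3, h4⟩ := hn1 n (le_trans (le_max_right _ _) hn)
  refine ⟨?_, pairW_beg h2 h4⟩
  rw [pairW_length]
  omega

theorem closedOf_pair (p q : Bai) : closedOf (pair p q) = closedOf p ∩ closedOf q := by
  ext x
  constructor
  · intro h
    constructor
    · intro n w hn
      refine h (2 * n) w ?_
      have : (2 * n) % 2 = 0 := by omega
      have h2 : 2 * n / 2 = n := by omega
      simp [WC.pair, hn]
    · intro n w hn
      refine h (2 * n + 1) w ?_
      have : (2 * n + 1) % 2 = 1 := by omega
      have h2 : (2 * n + 1) / 2 = n := by omega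
      simp [WC.pair, this, h2, hn]
  · rintro ⟨h1, h2⟩ n w hn
    unfold WC.pair at hn
    split at hn
    · exact h1 _ _ hn
    · exact h2 _ _ hn

theorem closedOf_isClosed (p : Bai) : IsClosed (closedOf p) := by
  have : closedOf p = ⋂ n, ⋂ w : List ℕ, {x : Bai | p n = Encodable.encode w + 1 → ¬ Beg w x} := by
    ext x; simp [closedOf]
  rw [this]
  refine isClosed_iInter fun n => isClosed_iInter fun w => ?_
  by_cases h : p n = Encodable.encode w + 1
  · simp only [h, true_implies]
    have : {x : Bai | ¬ Beg w x} = {x : Bai | Beg w x}ᶜ := rfl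
    rw [this, isClosed_compl_iff]
    have h2 : {x : Bai | Beg w x} = ⋂ i : Fin w.length, {x : Bai | x i = w[i]} := by
      ext x
      simp only [Set.mem_ofPred_eq, Set.mem_iInter, Beg_iff]
      constructor
      · intro h i; exact (h i i.2).symm
      · intro h i hi; exact (h ⟨i, hi⟩).symm
    rw [h2]
    refine isOpen_iInter_of_finite fun i => ?_
    have h3 : Continuous (fun x : Bai => x (i : ℕ)) := continuous_apply (i : ℕ)
    exact h3.isOpen_preimage (fun a : ℕ => a = w[i]) (isOpen_discrete _)
  · simp [h]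

end Pool.Agent.R575.WC
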